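import Mathlib

set_option autoImplicit false

namespace Pool.Agent.Results.MP_6e3918_co.Counter

/-- An oriented matroid on `E`, given by its signed circuits (circuit axioms C0-C3). -/
structure OM (E : Type) where
  C : Set (E → SignType)
  ne_zero : (0 : E → SignType) ∉ C
  neg : ∀ X ∈ C, -X ∈ C
  incomp : ∀ X ∈ C, ∀ Y ∈ C, (∀ e, X e ≠ 0 → Y e ≠ 0) → X = Y ∨ X = -Y
  elim : ∀ X ∈ C, ∀ Y ∈ C, X ≠ -Y → ∀ e, X e = 1 → Y e = -1 → ∃ Z ∈ C, Z e = 0 ∧
    (∀ f, Z f = 1 → X f = 1 ∨ Y f = 1) ∧ ∀ f, Z f = -1 → X f = -1 ∨ Y f = -1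

variable {E : Type}

/-- Independent sets of the underlying matroid: they contain the support of no circuit. -/
def OM.Indep (O : OM E) (I : Finset E) : Prop := ∀ X ∈ O.C, ∃ e, X e ≠ 0 ∧ e ∉ I

/-- Rank function of the underlying matroid. -/
noncomputable def OM.rank (O : OM E) (A : Finset E) : ℕ :=
  sSup {n | ∃ I ⊆ A, O.Indep I ∧ I.card = n}

/-- `e` lies in the closure of `A` in the underlying matroid. -/
def OM.InCl (O : OM E) (A : Finset E) (e : E) : Prop :=
  e ∈ A ∨ ∃ X ∈ O.C, X e ≠ 0 ∧ ∀ f, X f ≠ 0 → f = e ∨ f ∈ A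

/-- Flats of the underlying matroid. -/
def OM.Flat (O : OM E) (F : Finset E) : Prop := ∀ e, O.InCl F e → e ∈ F

/-- Modular cuts of the underlying matroid. -/
def OM.ModularCut [DecidableEq E] (O : OM E) (M : Set (Finset E)) : Prop :=
  (∀ F ∈ M, O.Flat F) ∧ (∀ F ∈ M, ∀ G, O.Flat G → F ⊆ G → G ∈ M) ∧
    ∀ F ∈ M, ∀ G ∈ M, O.rank F + O.rank G = O.rank (F ∪ G) + O.rank (F ∩ G) → F ∩ G ∈ M

/-- `P` on `E ∪ {p}` (`p = none`) is a single-element extension of `O`: the circuits of `O` are the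
circuits of `P` avoiding `p`. -/
def OM.IsExt (O : OM E) (P : OM (Option E)) : Prop :=
  ∀ X : E → SignType, X ∈ O.C ↔ (fun o : Option E => o.elim 0 X) ∈ P.C

/-- The modular cut of an extension: the flats whose closure in `P` contains `p`. -/
def OM.cut (O : OM E) (P : OM (Option E)) : Set (Finset E) :=
  {F | O.Flat F ∧ P.InCl (F.map Function.Embedding.some) none}

def tab (i j : ℕ) : SignType :=
  match (72370607913622761550698280514939690993567090274674463852815374892008694940705 >>> (2 * (8 * i + j))) % 4 with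
  | 0 => 0
  | 1 => 1
  | _ => -1

def circ (i : Fin 14) (e : Fin 8) : SignType := tab i e

def circ' (i : Fin 16) (o : Option (Fin 8)) : SignType :=
  o.elim (if i = 14 then -1 else if i = 15 then 1 else 0) fun e => tab i e

def O : OM (Fin 8) where
  C := Set.range circ
  ne_zero := by simp only [Set.mem_range, funext_iff]; decide +kernel
  neg := by simp only [Set.forall_mem_range]; simp only [Set.mem_range, funext_iff]; decide +kernel
  incomp := by simp only [Set.forall_mem_range, funext_iff]; decide +kernel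
  elim := by
    simp only [Set.forall_mem_range, Set.exists_range_iff, ne_eq, funext_iff]; decide +kernel

def P : OM (Option (Fin 8)) where
  C := Set.range circ'
  ne_zero := by simp only [Set.mem_range, funext_iff]; decide +kernel
  neg := by simp only [Set.forall_mem_range]; simp only [Set.mem_range, funext_iff]; decide +kernel
  incomp := by simp only [Set.forall_mem_range, funext_iff]; decide +kernel
  elim := by
    simp only [Set.forall_mem_range, Set.exists_range_iff, ne_eq, funext_iff]; decide +kernel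

def cutL : Fin 4 → Finset (Fin 8) := ![Finset.univ, {0, 1, 6, 7}, {2, 3, 6, 7}, {4, 5, 6, 7}]

instance (F : Finset (Fin 8)) : Decidable (O.Flat F) :=
  decidable_of_iff (∀ e, (e ∈ F ∨ ∃ i, circ i e ≠ 0 ∧ ∀ f, circ i f ≠ 0 → f = e ∨ f ∈ F) →
    e ∈ F) (by simp only [OM.Flat, OM.InCl, O, Set.exists_range_iff])

instance (F : Finset (Fin 8)) : Decidable (O.Indep F) :=
  decidable_of_iff (∀ i, ∃ e, circ i e ≠ 0 ∧ e ∉ F) (by simp only [OM.Indep, O, Set.forall_mem_range])

theorem rank_le (A : Finset (Fin 8)) (k : ℕ) (h : ∀ I ∈ A.powerset, O.Indep I → I.card ≤ k) :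
    O.rank A ≤ k := csSup_le' (by
  rintro _ ⟨I, h1, h2, rfl⟩
  exact h I (Finset.mem_powerset.2 h1) h2)

theorem le_rank (A : Finset (Fin 8)) (h : O.Indep A) : A.card ≤ O.rank A :=
  le_csSup ⟨A.card, by
    rintro _ ⟨I, h1, -, rfl⟩
    exact Finset.card_le_card h1⟩ ⟨A, subset_rfl, h, rfl⟩

theorem mod_cut : O.ModularCut (Set.range cutL) := by
  refine ⟨by simp only [Set.forall_mem_range]; decide +kernel, ?_, ?_⟩
  · have : ∀ i, ∀ G : Finset (Fin 8), cutL i ⊆ G → O.Flat G → ∃ j, cutL j = G := by decide +kernel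
    rintro _ ⟨i, rfl⟩ G h1 h2
    exact this i G h2 h1
  · have : ∀ i j, (∃ k, cutL k = cutL i ∩ cutL j) ∨ (O.Indep (cutL i) ∧ O.Indep (cutL j) ∧
        (cutL i).card = 4 ∧ (cutL j).card = 4 ∧ (cutL i ∩ cutL j).card = 2 ∧
        (cutL i ∪ cutL j).card = 6 ∧ ¬ O.Indep (cutL i ∪ cutL j)) := by decide +kernel
    rintro _ ⟨i, rfl⟩ _ ⟨j, rfl⟩ h
    refine (this i j).elim id fun ⟨a, b, c, d, e, f, g⟩ => ?_
    have h1 := le_rank _ a
    have h2 := le_rank _ b
    have h3 := rank_le (cutL i ∪ cutL j) 5 fun I hI hI' => by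
      by_contra h4
      rw [Finset.eq_of_subset_of_card_le (Finset.mem_powerset.1 hI) (by omega)] at hI'
      exact g hI'
    have h4 := rank_le (cutL i ∩ cutL j) 2 fun I hI _ =>
      e ▸ Finset.card_le_card (Finset.mem_powerset.1 hI)
    omega

theorem is_ext : O.IsExt P := fun X => by
  constructor
  · rintro ⟨i, rfl⟩
    revert i
    simp only [P, Set.mem_range, funext_iff]
    decide +kernel
  · rintro ⟨i, hi⟩
    have : ∀ i, circ' i none = 0 → ∃ j, ∀ e, circ j e = circ' i (some e) := by decide +kernel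
    obtain ⟨j, hj⟩ := this i (congrFun hi none)
    exact ⟨j, funext fun e => (hj e).trans (congrFun hi (some e))⟩

theorem no_ext (Q : OM (Option (Fin 8))) (hQ : O.IsExt Q) : O.cut Q ≠ (Set.range cutL) := by
  intro h
  have h1 : ∀ F ∈ Set.range cutL, ∃ X ∈ Q.C, X none = 1 ∧ ∀ f, f ∉ F → X (some f) = 0 := by
    intro F hF
    obtain ⟨-, h2 | ⟨X, a, b, c⟩⟩ : F ∈ O.cut Q := h ▸ hF
    · simp at h2
    have c' : ∀ f, f ∉ F → X (some f) = 0 := fun f hf => by
      by_contra h3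
      simpa [hf] using c _ h3
    rcases hX : X none with _ | _ | _
    · exact absurd hX b
    · exact ⟨-X, Q.neg X a, by simp [hX], fun f hf => by simp [c' f hf]⟩
    · exact ⟨X, a, hX, c'⟩
  have h2 : ∀ X ∈ Q.C, ∀ Y ∈ Q.C, X none = 1 → Y none = 1 → X ≠ Y → ∃ Z ∈ Set.range circ,
      (∀ f, Z f = 1 → X (some f) = 1 ∨ Y (some f) = -1) ∧
        ∀ f, Z f = -1 → X (some f) = -1 ∨ Y (some f) = 1 := by
    intro X hX Y hY a b c
    obtain ⟨Z, z1, z2, z3, z4⟩ := Q.elim X hX (-Y) (Q.neg Y hY) (by simpa using c) none a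
      (by simp [b])
    refine ⟨fun e => Z (some e), (hQ _).2 ?_, fun f hf => ?_, fun f hf => ?_⟩
    · rwa [show (fun o : Option (Fin 8) => o.elim 0 fun e => Z (some e)) = Z from
        funext fun o => by cases o <;> simp [z2]]
    · simpa [neg_eq_iff_eq_neg] using z3 _ hf
    · simpa using z4 _ hf
  obtain ⟨X, x1, x2, x3⟩ := h1 {0, 1, 6, 7} ⟨1, rfl⟩
  obtain ⟨Y, y1, y2, y3⟩ := h1 {2, 3, 6, 7} ⟨2, rfl⟩
  obtain ⟨W, w1, w2, w3⟩ := h1 {4, 5, 6, 7} ⟨3, rfl⟩
  have h3 : X (some 0) ≠ 0 := fun e => by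
    have : ({1, 6, 7} : Finset (Fin 8)) ∈ O.cut Q := ⟨by decide +kernel, Or.inr ⟨X, x1, by simp [x2],
      fun f hf => by
        cases f with
        | none => exact Or.inl rfl
        | some f =>
          have a : f ∈ ({0, 1, 6, 7} : Finset (Fin 8)) := by
            by_contra a
            exact hf (x3 f a)
          have b : f ≠ 0 := fun b => hf (b ▸ e)
          simpa [b] using a⟩⟩
    rw [h] at this
    exact absurd this (by simp only [Set.mem_range]; decide +kernel)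
  obtain ⟨Z, z1, z2, z3⟩ := h2 X x1 Y y1 x2 y2 fun e => h3 (e ▸ y3 0 (by decide))
  obtain ⟨T, t1, t2, t3⟩ := h2 X x1 W w1 x2 w2 fun e => h3 (e ▸ w3 0 (by decide))
  have k1 : ∀ Z ∈ Set.range circ, (Z 4 = 1 ∨ Z 4 = -1 ∨ Z 5 = 1 ∨ Z 5 = -1) ∨
    (Z 0 = 1 ∧ Z 1 = -1) ∨ (Z 0 = -1 ∧ Z 1 = 1) := by
    simp only [Set.forall_mem_range]; decide +kernel
  have k2 : ∀ Z ∈ Set.range circ, (Z 2 = 1 ∨ Z 2 = -1 ∨ Z 3 = 1 ∨ Z 3 = -1) ∨
    (Z 0 = 1 ∧ Z 1 = 1) ∨ (Z 0 = -1 ∧ Z 1 = -1) := by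
    simp only [Set.forall_mem_range]; decide +kernel
  have a1 : X (some 0) = -X (some 1) := by
    rcases k1 Z z1 with (a | a | a | a) | ⟨a, b⟩ | ⟨a, b⟩
    · simpa [x3, y3] using z2 _ a
    · simpa [x3, y3] using z3 _ a
    · simpa [x3, y3] using z2 _ a
    · simpa [x3, y3] using z3 _ a
    · have := z2 _ a; have := z3 _ b; simp_all
    · have := z3 _ a; have := z2 _ b; simp_all
  have a2 : X (some 0) = X (some 1) := by
    rcases k2 T t1 with (a | a | a | a) | ⟨a, b⟩ | ⟨a, b⟩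
    · simpa [x3, w3] using t2 _ a
    · simpa [x3, w3] using t3 _ a
    · simpa [x3, w3] using t2 _ a
    · simpa [x3, w3] using t3 _ a
    · have := t2 _ a; have := t2 _ b; simp_all
    · have := t3 _ a; have := t3 _ b; simp_all
  rw [← a2] at a1
  exact h3 (SignType.self_eq_neg_iff.1 a1)

theorem result : ∃ (O : OM (Fin 8)) (P : OM (Option (Fin 8))) (M' : Set (Finset (Fin 8))),
    O.IsExt P ∧ (∀ F ∈ O.cut P, 2 ≤ O.rank F) ∧ O.ModularCut M' ∧ M' ⊆ O.cut P ∧
      ∀ Q : OM (Option (Fin 8)), O.IsExt Q → O.cut Q ≠ M' := by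
  refine ⟨O, P, _, is_ext, fun F hF => ?_, mod_cut, fun F hF => ⟨mod_cut.1 F hF, Or.inr ?_⟩, no_ext⟩
  · obtain ⟨-, h | ⟨X, a, b, c⟩⟩ := hF
    · simp at h
    have : ∀ X ∈ Set.range circ', X none ≠ 0 → X (some 6) ≠ 0 ∧ X (some 7) ≠ 0 := by
      simp only [Set.forall_mem_range]; decide +kernel
    have h6 : (6 : Fin 8) ∈ F := by simpa using c _ (this X a b).1
    have h7 : (7 : Fin 8) ∈ F := by simpa using c _ (this X a b).2
    exact le_csSup ⟨F.card, by
      rintro _ ⟨I, h1, -, rfl⟩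
      exact Finset.card_le_card h1⟩ ⟨{6, 7}, by simp [Finset.insert_subset_iff, h6, h7],
        by decide +kernel, rfl⟩
  · have : ∀ F ∈ Set.range cutL, ∀ f, circ' 14 f ≠ 0 →
        f = none ∨ f ∈ F.map Function.Embedding.some := by
      simp only [Set.forall_mem_range]; decide +kernel
    exact ⟨circ' 14, ⟨14, rfl⟩, by decide, this F hF⟩

end Pool.Agent.Results.MP_6e3918_co.Counter
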